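import Pool.Agent.helper53.AU.SpecG2

namespace Pool.Agent.helper53.AU

open scoped Classical

theorem AB_gen {L : Type} [Group L] (A : Subgroup L) (hA : IsCyclic A) :
    ∃ a0 : L, A = Subgroup.zpowers a0 := by
  obtain ⟨⟨a0, ha0⟩, hgen⟩ := hA
  refine ⟨a0, le_antisymm ?_ ?_⟩
  · intro x hx
    obtain ⟨j, hj⟩ := Subgroup.mem_zpowers_iff.1 (hgen ⟨x, hx⟩)
    refine Subgroup.mem_zpowers_iff.2 ⟨j, ?_⟩
    have := congrArg Subtype.val hj
    simpa using this
  · rw [Subgroup.zpowers_le]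
    exact ha0

/-- the subgroup of a cyclic group of the elements killed by `m`, where the order is `q * m` -/
theorem AB_part {L : Type} [Group L] [Finite L] (a0 : L) (q m : ℕ) (hqm : orderOf a0 = q * m)
    (_hq : 0 < q) (hm : 0 < m) (a : L) :
    (a ∈ Subgroup.zpowers a0 ∧ a ^ m = 1) ↔ a ∈ Subgroup.zpowers (a0 ^ q) := by
  constructor
  · rintro ⟨h1, h2⟩
    obtain ⟨j, rfl⟩ := Subgroup.mem_zpowers_iff.1 h1
    have h3 : a0 ^ (j * (m : ℤ)) = 1 := by
      rw [zpow_mul, zpow_natCast]; exact h2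
    have h4 : ((orderOf a0 : ℕ) : ℤ) ∣ j * (m : ℤ) := orderOf_dvd_iff_zpow_eq_one.2 h3
    rw [hqm] at h4
    push_cast at h4
    have h5 : (q : ℤ) ∣ j := Int.dvd_of_mul_dvd_mul_right (by exact_mod_cast hm.ne') h4
    obtain ⟨c, rfl⟩ := h5
    refine Subgroup.mem_zpowers_iff.2 ⟨c, ?_⟩
    rw [zpow_mul, zpow_natCast]
  · intro h
    obtain ⟨j, rfl⟩ := Subgroup.mem_zpowers_iff.1 h
    refine ⟨Subgroup.zpow_mem _ (Subgroup.pow_mem _ (Subgroup.mem_zpowers a0) q) j, ?_⟩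
    rw [← zpow_natCast, ← zpow_mul, mul_comm j, zpow_mul, zpow_natCast, ← pow_mul, ← hqm,
      pow_orderOf_eq_one, one_zpow]

theorem AB : AB_stmt := by
  intro L _ _ A hA
  obtain ⟨a0, rfl⟩ := AB_gen A hA
  have hpos : 0 < orderOf a0 := orderOf_pos a0
  obtain ⟨k, m, hmodd, hkm⟩ := Nat.exists_eq_two_pow_mul_odd hpos.ne'
  have hm : 0 < m := hmodd.pos
  have h2k : 0 < 2 ^ k := by positivity
  -- the two parts
  have hO1 : ∀ a : L, (a ∈ Subgroup.zpowers a0 ∧ Odd (orderOf a)) ↔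
      a ∈ Subgroup.zpowers (a0 ^ (2 ^ k)) := by
    intro a
    rw [← AB_part a0 (2 ^ k) m hkm h2k hm a]
    refine and_congr_right fun ha => ?_
    constructor
    · intro ho
      have h1 : orderOf a ∣ 2 ^ k * m := by
        rw [← hkm]
        obtain ⟨j, rfl⟩ := Subgroup.mem_zpowers_iff.1 ha
        rw [orderOf_dvd_iff_pow_eq_one, ← zpow_natCast, ← zpow_mul, mul_comm, zpow_mul, zpow_natCast,
          pow_orderOf_eq_one, one_zpow]
      have h2 : Nat.Coprime (orderOf a) (2 ^ k) := (Nat.Coprime.pow_right k (Nat.coprime_two_right.2 ho))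
      exact orderOf_dvd_iff_pow_eq_one.1 (h2.dvd_of_dvd_mul_left h1)
    · intro h
      exact Odd.of_dvd_nat hmodd (orderOf_dvd_iff_pow_eq_one.2 h)
  have hT1 : ∀ a : L, (a ∈ Subgroup.zpowers a0 ∧ ∃ n : ℕ, a ^ (2 ^ n) = 1) ↔
      a ∈ Subgroup.zpowers (a0 ^ m) := by
    intro a
    rw [← AB_part a0 m (2 ^ k) (by rw [hkm, mul_comm]) hm h2k a]
    refine and_congr_right fun ha => ?_
    constructor
    · rintro ⟨n, hn⟩
      have h1 : orderOf a ∣ 2 ^ k * m := by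
        rw [← hkm]
        obtain ⟨j, rfl⟩ := Subgroup.mem_zpowers_iff.1 ha
        rw [orderOf_dvd_iff_pow_eq_one, ← zpow_natCast, ← zpow_mul, mul_comm, zpow_mul, zpow_natCast,
          pow_orderOf_eq_one, one_zpow]
      have h2 : orderOf a ∣ 2 ^ n := orderOf_dvd_iff_pow_eq_one.2 hn
      have h3 : Nat.Coprime (orderOf a) m :=
        Nat.Coprime.coprime_dvd_left h2 (Nat.Coprime.pow_left n (Nat.coprime_two_left.2 hmodd))
      exact orderOf_dvd_iff_pow_eq_one.1 (h3.dvd_of_dvd_mul_right h1)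
    · intro h
      exact ⟨k, h⟩
  have hO : oddPart (Subgroup.zpowers a0) = Subgroup.zpowers (a0 ^ (2 ^ k)) := by
    unfold oddPart
    have : {a : L | a ∈ Subgroup.zpowers a0 ∧ Odd (orderOf a)} =
        ((Subgroup.zpowers (a0 ^ (2 ^ k)) : Subgroup L) : Set L) := by
      ext a
      exact hO1 a
    rw [this, Subgroup.closure_eq]
  have hT : twoPart (Subgroup.zpowers a0) = Subgroup.zpowers (a0 ^ m) := by
    unfold twoPart
    have : {a : L | a ∈ Subgroup.zpowers a0 ∧ ∃ n : ℕ, a ^ (2 ^ n) = 1} =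
        ((Subgroup.zpowers (a0 ^ m) : Subgroup L) : Set L) := by
      ext a
      exact hT1 a
    rw [this, Subgroup.closure_eq]
  have cO : Nat.card (oddPart (Subgroup.zpowers a0)) = m := by
    rw [hO, Nat.card_zpowers, orderOf_pow, hkm, Nat.gcd_eq_right (Dvd.intro _ rfl),
      Nat.mul_div_cancel_left _ h2k]
  have cT : Nat.card (twoPart (Subgroup.zpowers a0)) = 2 ^ k := by
    rw [hT, Nat.card_zpowers, orderOf_pow, hkm, Nat.gcd_eq_right (Dvd.intro_left _ rfl),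
      Nat.mul_div_cancel _ hm]
  refine ⟨?_, ?_, ?_, ?_, ?_, ?_, ?_, ?_, ?_, ?_⟩
  · intro a; rw [hO]; exact (hO1 a).symm
  · intro a; rw [hT]; exact (hT1 a).symm
  · rw [cO, cT, Nat.card_zpowers, hkm, mul_comm]
  · rw [cO]; exact hmodd
  · exact ⟨k, cT⟩
  · rw [hO]; infer_instance
  · rw [hT]; infer_instance
  · intro a ha
    obtain ⟨j, rfl⟩ := Subgroup.mem_zpowers_iff.1 ha
    have hco : IsCoprime ((2 : ℤ) ^ k) (m : ℤ) := by
      have : Nat.Coprime (2 ^ k) m := Nat.Coprime.pow_left k (Nat.coprime_two_left.2 hmodd)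
      have h := Nat.isCoprime_iff_coprime.2 this
      simpa using h
    obtain ⟨u, v, huv⟩ := hco
    refine ⟨(a0 ^ (2 ^ k)) ^ (u * j), ?_, (a0 ^ m) ^ (v * j), ?_, ?_⟩
    · rw [hO]; exact Subgroup.zpow_mem _ (Subgroup.mem_zpowers _) _
    · rw [hT]; exact Subgroup.zpow_mem _ (Subgroup.mem_zpowers _) _
    · rw [← zpow_natCast a0 (2 ^ k), ← zpow_natCast a0 m, ← zpow_mul, ← zpow_mul, ← zpow_add]
      congr 1
      push_cast
      linear_combination (-j) * huv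
  · intro s t hs ht hs2 ht2
    obtain ⟨i, rfl⟩ := Subgroup.mem_zpowers_iff.1 hs
    obtain ⟨j, rfl⟩ := Subgroup.mem_zpowers_iff.1 ht
    have e1 : ∀ i : ℤ, IsInv (a0 ^ i) → ∃ c : ℤ, 2 * i = (orderOf a0 : ℤ) * (2 * c + 1) := by
      intro i hi
      have h1 : a0 ^ (i + i) = 1 := by rw [zpow_add]; exact hi.1
      obtain ⟨c, hc⟩ := orderOf_dvd_iff_zpow_eq_one.2 h1
      rcases Int.even_or_odd' c with ⟨d, hd | hd⟩
      · exfalso
        apply hi.2
        apply orderOf_dvd_iff_zpow_eq_one.1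
        refine ⟨d, ?_⟩
        rw [hd] at hc
        linarith
      · exact ⟨d, by rw [← hd, ← hc]; ring⟩
    obtain ⟨c, hc⟩ := e1 i hs2
    obtain ⟨d, hd⟩ := e1 j ht2
    have h3 : i = j + (orderOf a0 : ℤ) * (c - d) := by linarith
    rw [h3, zpow_add, zpow_mul, zpow_natCast, pow_orderOf_eq_one, one_zpow, mul_one]
  · intro B hB g hg b hb
    obtain ⟨r, hr⟩ := Subgroup.mem_zpowers_iff.1 (hg a0 (Subgroup.mem_zpowers a0))
    obtain ⟨j, rfl⟩ := Subgroup.mem_zpowers_iff.1 (hB hb)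
    have h1 : g * a0 ^ j * g⁻¹ = (a0 ^ j) ^ r := by
      rw [← conj_zpow, ← hr, ← zpow_mul, ← zpow_mul, mul_comm]
    rw [h1]
    exact Subgroup.zpow_mem _ hb r

end Pool.Agent.helper53.AU
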