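import Pool.Agent.helper75.AU.SpecR

namespace Pool.Agent.helper75.AU

open scoped Classical
open Pool.Agent.helper53.AU MulAction

theorem BA3_no2 {G : Type} [Group G] (P : Subgroup G) (hP : IsPGroup 3 P) (s : G) (hs : s ∈ P)
    (h : s * s = 1) : s = 1 := by
  obtain ⟨n, hn⟩ := hP ⟨s, hs⟩
  have hn' : s ^ (3 ^ n) = 1 := by
    have := congrArg Subtype.val hn
    simpa using this
  have h1 : orderOf s ∣ 3 ^ n := orderOf_dvd_of_pow_eq_one hn'
  have h2 : orderOf s ∣ 2 := orderOf_dvd_of_pow_eq_one (by rw [pow_two]; exact h)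
  have h3 : Nat.Coprime (3 ^ n) 2 := Nat.Coprime.pow_left n (by norm_num)
  have h4 : orderOf s ∣ 1 := by
    rw [← h3]; exact Nat.dvd_gcd h1 h2
  exact orderOf_eq_one_iff.1 (Nat.dvd_one.1 h4)

theorem BA3_card {G : Type} [Group G] [Fintype G] (H : Subgroup G) :
    (Finset.univ.filter (fun s : G => s ∈ H ∧ s ≠ 1)).card + 1 = Nat.card H := by
  have h1 : Nat.card H = (Finset.univ.filter (fun s : G => s ∈ H)).card := by
    rw [Nat.card_eq_fintype_card, Fintype.card_subtype]
  have h2 : Finset.univ.filter (fun s : G => s ∈ H) =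
      insert (1 : G) (Finset.univ.filter (fun s : G => s ∈ H ∧ s ≠ 1)) := by
    ext s
    simp only [Finset.mem_filter, Finset.mem_univ, true_and, Finset.mem_insert]
    constructor
    · intro hs
      by_cases h : s = 1
      · exact Or.inl h
      · exact Or.inr ⟨hs, h⟩
    · rintro (h | h)
      · rw [h]; exact one_mem H
      · exact h.1
  rw [h1, h2, Finset.card_insert_of_notMem]
  simp

theorem BA3 (h1 : BA1_stmt) : BA3_stmt := by
  intro k G X _ _ _ _ _ _ g R x H
  obtain ⟨hp, hmem, -, hconj, -, -, -, -, -, -⟩ := h1 k G X g R x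
  have key1 : ∀ K : Subgroup G, 2 ∣ TS R K x := by
    intro K
    rw [← ZMod.natCast_eq_zero_iff]
    unfold TS
    push_cast
    refine Finset.sum_involution (fun s _ => s⁻¹) ?_ ?_ ?_ ?_
    · intro s hs
      simp only [Finset.mem_filter, Finset.mem_univ, true_and] at hs
      rw [R.inv x s ((hmem s).1 hs.2.1).1]
      have : (2 : ZMod 2) = 0 := by decide
      rw [← two_mul, this, zero_mul]
    · intro s hs _ he
      simp only [Finset.mem_filter, Finset.mem_univ, true_and] at hs
      apply hs.2.2
      apply BA3_no2 (R.P x) hp s hs.2.1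
      nth_rewrite 1 [← he]
      rw [inv_mul_cancel]
    · intro s hs
      simp only [Finset.mem_filter, Finset.mem_univ, true_and] at hs ⊢
      exact ⟨inv_mem hs.1, inv_mem hs.2.1, inv_ne_one.2 hs.2.2⟩
    · intro s _
      exact inv_inv s
  have key2 : ∀ K : Subgroup G, Nat.card (K ⊓ R.P x : Subgroup G) ≤ TS R K x + 1 := by
    intro K
    rw [← BA3_card]
    refine Nat.add_le_add_right ?_ 1
    unfold TS
    rw [Finset.card_eq_sum_ones]
    refine le_trans (Finset.sum_le_sum_of_subset (t := Finset.univ.filter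
      (fun s : G => s ∈ K ∧ s ∈ R.P x ∧ s ≠ 1)) ?_) (Finset.sum_le_sum ?_)
    · intro s hs
      simp only [Finset.mem_filter, Finset.mem_univ, true_and, Subgroup.mem_inf] at hs ⊢
      exact ⟨hs.1.1, hs.1.2, hs.2⟩
    · intro s hs
      simp only [Finset.mem_filter, Finset.mem_univ, true_and] at hs
      exact (((hmem s).1 hs.2.1).2).resolve_left hs.2.2
  have key4 : ∀ K : Subgroup G, R.P x ≤ K → TS R K x = R.T x := by
    intro K hK
    unfold TS Ram.T
    refine Finset.sum_congr ?_ fun _ _ => rfl
    ext s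
    simp only [Finset.mem_filter, Finset.mem_univ, true_and]
    exact ⟨fun h => h.2, fun h => ⟨hK h.1, h⟩⟩
  refine ⟨key1 H, key2 H, ?_, key4 H, ?_, ?_, ?_, ?_, ?_, ?_⟩
  · rw [← BA3_card]
    have e1 : R.d H x = ∑ s ∈ Finset.univ.filter (fun s : G => s ∈ H ∧ s ≠ 1 ∧ s • x = x), R.i x s +
        (Finset.univ.filter (fun s : G => s ∈ H ⊓ stabilizer G x ∧ s ≠ 1)).card := by
      unfold Ram.d
      rw [Finset.sum_add_distrib, Finset.sum_const, smul_eq_mul, mul_one]
      congr 2
      ext s
      simp only [Finset.mem_filter, Finset.mem_univ, true_and, Subgroup.mem_inf, mem_stabilizer_iff]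
      tauto
    have e2 : ∑ s ∈ Finset.univ.filter (fun s : G => s ∈ H ∧ s ≠ 1 ∧ s • x = x), R.i x s =
        TS R H x := by
      unfold TS
      symm
      refine Finset.sum_subset ?_ ?_
      · intro s hs
        simp only [Finset.mem_filter, Finset.mem_univ, true_and] at hs ⊢
        exact ⟨hs.1, hs.2.2, ((hmem s).1 hs.2.1).1⟩
      · intro s hs hs'
        simp only [Finset.mem_filter, Finset.mem_univ, true_and] at hs hs'
        by_contra hne
        apply hs'
        exact ⟨hs.1, (hmem s).2 ⟨hs.2.2, Or.inr (Nat.one_le_iff_ne_zero.2 hne)⟩, hs.2.1⟩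
    rw [e1, e2]
    ring
  · unfold TS Ram.T
    refine Finset.sum_le_sum_of_subset ?_
    intro s hs
    simp only [Finset.mem_filter, Finset.mem_univ, true_and] at hs ⊢
    exact hs.2
  · intro hb
    unfold TS
    refine Finset.sum_eq_zero fun s hs => ?_
    simp only [Finset.mem_filter, Finset.mem_univ, true_and] at hs
    exfalso
    have : s ∈ H ⊓ R.P x := ⟨hs.1, hs.2.1⟩
    rw [hb, Subgroup.mem_bot] at this
    exact hs.2.2 this
  · intro hb
    unfold Ram.d
    refine Finset.sum_eq_zero fun s hs => ?_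
    simp only [Finset.mem_filter, Finset.mem_univ, true_and] at hs
    exfalso
    have : s ∈ H ⊓ stabilizer G x := ⟨hs.1, hs.2.2⟩
    rw [hb, Subgroup.mem_bot] at this
    exact hs.2.1 this
  · intro a ha
    constructor
    · unfold Ram.d
      symm
      refine Finset.sum_equiv (MulAut.conj a).toEquiv ?_ ?_
      · intro s
        simp only [Finset.mem_filter, Finset.mem_univ, true_and, MulEquiv.toEquiv_eq_coe,
          MulEquiv.coe_toEquiv, MulAut.conj_apply]
        rw [ha s, ne_eq, ne_eq, conj_eq_one_iff]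
        refine and_congr_right fun _ => and_congr_right fun _ => ?_
        rw [mul_smul, mul_smul, inv_smul_smul, smul_left_cancel_iff]
      · intro s _
        simp only [MulEquiv.toEquiv_eq_coe, MulEquiv.coe_toEquiv, MulAut.conj_apply]
        rw [R.conj]
    · unfold TS
      symm
      refine Finset.sum_equiv (MulAut.conj a).toEquiv ?_ ?_
      · intro s
        simp only [Finset.mem_filter, Finset.mem_univ, true_and, MulEquiv.toEquiv_eq_coe,
          MulEquiv.coe_toEquiv, MulAut.conj_apply]
        rw [ha s, ne_eq, ne_eq, conj_eq_one_iff, hconj a s]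
      · intro s _
        simp only [MulEquiv.toEquiv_eq_coe, MulEquiv.coe_toEquiv, MulAut.conj_apply]
        rw [R.conj]
  · rw [← key4 ⊤ le_top]; exact key1 ⊤
  · have := key2 ⊤
    rw [key4 ⊤ le_top, top_inf_eq] at this
    exact this

end Pool.Agent.helper75.AU
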