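import Pool.Agent.helper75.AU.SpecR2

namespace Pool.Agent.helper75.AU

open scoped Classical
open Pool.Agent.helper53.AU MulAction

theorem BLO : BLO_stmt := by
  intro h W Om _ _ _ _ _ A hodd hcyc hsemi hpre hcop
  have hX : Odd (Nat.card (⊤ : Subgroup W)) := by
    rw [Subgroup.card_top, ← Nat.not_even_iff_odd, even_iff_two_dvd]
    exact hodd
  obtain ⟨h1, h2⟩ := h W Om ⊤ A le_top hcyc hX
    (fun ω x _ => by
      obtain ⟨a, ha, hax⟩ := hpre x ω
      exact ⟨a, ha, hax.symm⟩)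
    (fun a ha ω hω => hsemi a ha ω hω)
    (fun ω => by
      have : Nat.card {x : W // x ∈ (⊤ : Subgroup W) ∧ x • ω = ω} = Nat.card (stabilizer W ω) :=
        Nat.card_congr (Equiv.subtypeEquivRight fun x => by
          rw [mem_stabilizer_iff]; exact ⟨fun hx => hx.2, fun hx => ⟨Subgroup.mem_top x, hx⟩⟩)
      rw [this]
      exact hcop ω)
  exact ⟨⟨fun a ha v => h1 v (Subgroup.mem_top v) a ha⟩, fun v hv => h2 v (Subgroup.mem_top v) hv⟩

end Pool.Agent.helper75.AU
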