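import Pool.Agent.helper75.AU.SpecR

namespace Pool.Agent.helper75.AU

open scoped Classical
open Pool.Agent.helper53.AU MulAction

/-- the Sylow subgroup is normal if the index is small -/
theorem T6_sylow {G : Type} [Group G] [Fintype G] (l m : ℕ) (hl : l.Prime) (hm : m < l) (hm0 : 0 < m)
    (hN : Nat.card G = m * l) : ∃ Lam : Subgroup G, Lam.Normal ∧ Nat.card Lam = l := by
  have : Fact l.Prime := ⟨hl⟩
  obtain ⟨S⟩ : Nonempty (Sylow l G) := inferInstance
  have hcop : ¬ l ∣ m := fun h => absurd (Nat.le_of_dvd hm0 h) (not_le.2 hm)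
  have hcard : Nat.card S = l := by
    rw [Sylow.card_eq_multiplicity, hN, Nat.factorization_mul hm0.ne' hl.ne_zero, Finsupp.add_apply,
      hl.factorization_self, Nat.factorization_eq_zero_of_not_dvd hcop, zero_add, pow_one]
  have hidx : (S : Subgroup G).index = m := by
    have h1 := (S : Subgroup G).card_mul_index
    rw [hcard, hN, mul_comm m l] at h1
    exact Nat.eq_of_mul_eq_mul_left hl.pos h1
  have h2 : Nat.card (Sylow l G) ≡ 1 [MOD l] := card_sylow_modEq_one l G
  have h3 : Nat.card (Sylow l G) ∣ m := by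
    rw [← hidx]; exact S.card_dvd_index
  have h4 : Nat.card (Sylow l G) ≤ m := Nat.le_of_dvd hm0 h3
  have h5 : Nat.card (Sylow l G) = 1 := by
    unfold Nat.ModEq at h2
    rwa [Nat.mod_eq_of_lt (lt_of_le_of_lt h4 hm), Nat.mod_eq_of_lt hl.one_lt] at h2
  refine ⟨S, ?_, hcard⟩
  have : Subsingleton (Sylow l G) := (Nat.card_eq_one_iff_unique.1 h5).1
  exact Sylow.normal_of_subsingleton S

theorem T6 (hLM : LM_stmt) (hB1 : BA1_stmt) (hB3 : BA3_stmt) (hB4 : BA4_stmt) : T6_stmt := by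
  intro k G X _ _ _ _ _ _ l R y₁ y₂ y₃ hsp ht hN
  have hl := hsp.prime
  have hlarge := hsp.large
  obtain ⟨m, hm, hmN⟩ : ∃ m : ℕ, (m = 10 ∨ m = 16 ∨ m = 20 ∨ m = 40) ∧ Nat.card G = m * l := by
    rcases hN with h | h | h | h
    · exact ⟨10, by simp, h⟩
    · exact ⟨16, by simp, h⟩
    · exact ⟨20, by simp, h⟩
    · exact ⟨40, by simp, h⟩
  have hm0 : 0 < m := by omega
  have hml : m < l := by omega
  obtain ⟨Lam, hLn, hLc⟩ := T6_sylow l m hl hml hm0 hmN
  obtain ⟨hsum, hnorm, hidx1, hidx2, -⟩ := hLM k G X l R Lam hsp hLn hLc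
  set M := Subgroup.centralizer (Lam : Set G) with hMdef
  -- the index is at most 2
  have hc2 : M.index ∣ 2 := by
    have h1 : M.index ∣ m := by
      rw [hmN] at hidx2
      exact Nat.dvd_of_mul_dvd_mul_right hl.pos hidx2
    have h2 : M.index ∣ 80 := by
      rcases hm with rfl | rfl | rfl | rfl
      · exact h1.trans (by norm_num)
      · exact h1.trans (by norm_num)
      · exact h1.trans (by norm_num)
      · exact h1.trans (by norm_num)
    have h3 : Nat.gcd 80 (l - 1) = 2 := by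
      have e1 : Nat.gcd 80 (l - 1) = Nat.gcd 80 ((l - 1) % 80) := by
        rw [Nat.gcd_comm 80 ((l - 1) % 80), ← Nat.gcd_rec]
      have e2 : (l - 1) % 8 = 2 := by have := hsp.mod8; omega
      have e3 : (l - 1) % 5 = 1 := by have := hsp.mod5; omega
      have e5 : (l - 1) % 80 = 26 ∨ (l - 1) % 80 = 66 := by omega
      rw [e1]
      rcases e5 with h | h <;> rw [h] <;> norm_num
    rw [← h3]
    exact Nat.dvd_gcd h2 hidx1
  have hinv : ∀ a s : G, a * s * a⁻¹ ∈ M ↔ s ∈ M := by
    intro a s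
    constructor
    · intro h
      have := hnorm.conj_mem _ h a⁻¹
      have e : a⁻¹ * (a * s * a⁻¹) * a⁻¹⁻¹ = s := by group
      rwa [e] at this
    · intro h
      exact hnorm.conj_mem _ h a
  have hd : ∀ (a : G) (z : X), (R.d M (a • z) : ℤ) = R.d M z := by
    intro a z
    have := (hB3 k G X (l + 1) R z M).2.2.2.2.2.2.2.1 a (hinv a)
    rw [this.1]
  have hd0 : ∀ z : X, z ∉ orbit G y₁ → z ∉ orbit G y₂ → z ∉ orbit G y₃ → (R.d M z : ℤ) = 0 := by
    intro z h1 h2 h3
    have hs : stabilizer G z = ⊥ := by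
      by_contra hne
      rcases ht.cov z hne with h | h | h
      · exact h1 h
      · exact h2 h
      · exact h3 h
    have := (hB3 k G X (l + 1) R z M).2.2.2.2.2.2.1 (by rw [hs, inf_bot_eq])
    rw [this, Nat.cast_zero]
  obtain ⟨hoo, -, -, hs3⟩ := hB4 G X
  have hS := hs3 (fun z => (R.d M z : ℤ)) y₁ y₂ y₃ hd ht.ne₁₂ ht.ne₁₃ ht.ne₂₃ hd0
  -- lower bound for each term
  have hterm : ∀ y : X, (Nat.card G : ℤ) - 2 * (oo G y : ℤ) ≤ 2 * ((oo G y : ℤ) * (R.d M y : ℤ)) := by
    intro y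
    have h1 := (hB3 k G X (l + 1) R y M).2.2.1
    have hP : R.P y = ⊥ := by
      by_contra hne
      obtain ⟨hpg, -⟩ := hB1 k G X (l + 1) R y
      have : Nontrivial (R.P y) := (Subgroup.nontrivial_iff_ne_bot _).2 hne
      obtain ⟨n, hn, hcard⟩ := (IsPGroup.nontrivial_iff_card hpg).1 inferInstance
      apply ht.nd
      have h3 : 3 ∣ Nat.card (R.P y) := by
        rw [hcard]; exact dvd_pow_self 3 hn.ne'
      exact h3.trans (Subgroup.card_subgroup_dvd_card _)
    have h2 := (hB3 k G X (l + 1) R y M).2.2.2.2.2.1 (by rw [hP, inf_bot_eq])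
    rw [h2, add_zero] at h1
    have h4 : Nat.card (stabilizer G y) ≤ 2 * Nat.card (M ⊓ stabilizer G y : Subgroup G) := by
      have e1 : M.relIndex (stabilizer G y) ∣ M.index := Subgroup.relIndex_dvd_index_of_normal _ _
      have e2 : M.relIndex (stabilizer G y) ≤ 2 := Nat.le_of_dvd (by norm_num) (e1.trans hc2)
      have e3 : Nat.card (M ⊓ stabilizer G y : Subgroup G) * M.relIndex (stabilizer G y) =
          Nat.card (stabilizer G y) := by
        rw [← Subgroup.relIndex_bot_left, ← Subgroup.relIndex_bot_left, mul_comm,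
          ← Subgroup.inf_relIndex_right M (stabilizer G y), mul_comm]
        exact Subgroup.relIndex_mul_relIndex ⊥ (M ⊓ stabilizer G y) (stabilizer G y) bot_le inf_le_right
      nlinarith
    have h5 := hoo y
    have h6 : (Nat.card G : ℤ) = (oo G y : ℤ) * (Nat.card (stabilizer G y) : ℤ) := by
      exact_mod_cast h5.symm
    have h7 : ((R.d M y : ℤ) + 1) = (Nat.card (M ⊓ stabilizer G y : Subgroup G) : ℤ) := by
      exact_mod_cast h1
    have h8 : (Nat.card (stabilizer G y) : ℤ) ≤ 2 * ((R.d M y : ℤ) + 1) := by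
      rw [h7]; exact_mod_cast h4
    have h9 : (0 : ℤ) ≤ (oo G y : ℤ) := by positivity
    nlinarith [mul_le_mul_of_nonneg_left h8 h9]
  have t1 := hterm y₁
  have t2 := hterm y₂
  have t3 := hterm y₃
  have hrh := ht.rh
  have hrh' : 2 * ((l : ℤ) + 1) + oo G y₁ + oo G y₂ + oo G y₃ = 2 + (Nat.card G : ℤ) := by
    exact_mod_cast hrh
  have hsum' : (∑ z : X, (R.d M z : ℤ)) ≤ 2 * (l : ℤ) := by
    exact_mod_cast hsum
  rw [hS] at hsum'
  have hNpos : (0 : ℤ) < (Nat.card G : ℤ) := by exact_mod_cast Nat.card_pos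
  linarith

end Pool.Agent.helper75.AU
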